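import Pool.Agent.Helper68.QC.St2

/-!
# Project QD, part M (MP_d112a4_gt), module POX: composition with a holomorphic map on the left
-/

set_option autoImplicit false

namespace Pool.Agent.Helper64.QCM

open Pool.Agent.Helper68.QC
open MeasureTheory Set Filter Topology Complex
open scoped ContDiff ComplexConjugate ENNReal

/-- POX -/
theorem pPOX : StPOX := by
  intro hCHR μ U W f g hU hW hg hm hf
  obtain ⟨a, b, hwd, hae⟩ := hf
  have hgc : ContDiffOn ℝ ∞ g W := (hg.contDiffOn hW).restrict_scalars ℝ
  refine ⟨_, _, hCHR U W f a b g hU hW hwd hm hgc, ?_⟩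
  filter_upwards [hae, ae_restrict_mem hU.measurableSet] with z hz hzU
  have h1 : dzb g (f z) = 0 := dzb_holo (hg.differentiableAt (hW.mem_nhds (hm hzU)))
  rw [h1, hz]
  ring

end Pool.Agent.Helper64.QCM
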